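import Pool.Agent.Y72.Un.Van
import Pool.Agent.Y72.Dt.SgMain

/-!
# All representations, under the conditions on centralisers and roots
-/

set_option autoImplicit false
set_option linter.unusedSectionVars false

namespace Pool.Agent.Y72.Un

section tors

open Finset H219.Wh Pool.Agent.Y72.Log Pool.Agent.Y72.Dt
open Pool.Agent.H23R2 (InvPair IsCoc DsumZ cf supp invPair_units)
open scoped Classical

variable {Γ : Type*} [Group Γ] {n d : ℕ}

/-- **Determinants of representations over integral group rings of finite commutative groups** -/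
theorem tors (A : (Matrix (Fin n) (Fin n) (MonoidAlgebra ℤ Γ))ˣ) (hn : Cn Γ)
    {T : Type*} [CommGroup T] [Finite T]
    (ρ : Γ →* Matrix (Fin d) (Fin d) (MonoidAlgebra ℤ T)) (hρ : (Set.range ρ).Finite) :
    (block ρ A.val).det * (ρ (gamA A)⁻¹).det = 1 ∨
      (block ρ A.val).det * (ρ (gamA A)⁻¹).det = -1 := by
  set u := (block ρ A.val).det * (ρ (gamA A)⁻¹).det with hudef
  -- the character values
  have h1 : ∀ ψ : AddChar (Additive T) ℂ, ‖chr ψ u‖ = 1 := by
    intro ψ
    have hr : (Set.range (((chr ψ).mapMatrix.toMonoidHom).comp ρ :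
        Γ →* Matrix (Fin d) (Fin d) ℂ)).Finite := by
      have : Set.range (((chr ψ).mapMatrix.toMonoidHom).comp ρ :
        Γ →* Matrix (Fin d) (Fin d) ℂ) = (chr ψ).mapMatrix '' Set.range ρ := by
        ext x
        simp only [Set.mem_range, Set.mem_image, exists_exists_eq_and]
        rfl
      rw [this]
      exact hρ.image _
    obtain ⟨N, hN, h2⟩ := det_cn hn A (((chr ψ).mapMatrix.toMonoidHom).comp ρ) hr
    obtain ⟨m, hm, h3⟩ := finite_order (((chr ψ).mapMatrix.toMonoidHom).comp ρ) hr (gamA A)⁻¹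
    have h4 : ((((chr ψ).mapMatrix.toMonoidHom).comp ρ) (gamA A)⁻¹).det ^ m = 1 := by
      rw [← Matrix.det_pow, h3, Matrix.det_one]
    have h5 : (chr ψ u) ^ (N * m) = 1 := by
      rw [hudef, ← det_map, mul_pow, pow_mul, mul_comm N m, pow_mul _ m N, h4, one_pow, mul_one]
      have h6 : (block (((chr ψ).mapMatrix.toMonoidHom).comp ρ) A.val).det ^ N = 1 := h2
      rw [h6, one_pow]
    exact Complex.norm_eq_one_of_pow_eq_one h5 (Nat.mul_pos hN hm).ne'
  obtain ⟨t, ht⟩ := triv_unit u h1
  -- the logarithmic derivative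
  have h2 : t = 1 := by
    by_contra hne
    obtain ⟨p, N, hp, μ, hμ⟩ := exists_char t hne
    let π : MonoidAlgebra ℤ T →+* MonoidAlgebra (ZMod (p ^ N)) T :=
      MonoidAlgebra.mapRingHom T (Int.castRingHom (ZMod (p ^ N)))
    obtain ⟨y, hy⟩ := dlog_det (p := 0) (I := 0) A (γ := gamA A) (Λ := Unit)
      (D := fun _ => DM μ) (by
        intro F hF
        refine ⟨0, AddSubgroup.zero_mem _, ?_⟩
        rw [zero_smul, add_zero]
        have := PD_main A hn hp (N := N) (Λ := T)
          (M := Unit → MonoidAlgebra (ZMod (p ^ N)) T)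
          (fun t => { toFun := fun f => (f ()).coeff t
                      map_zero' := rfl
                      map_add' := fun f g => rfl }) (by
            intro x hx
            funext z
            ext s
            exact hx s) hF
        exact this) ((π.mapMatrix.toMonoidHom).comp ρ)
    have h3 := hy ()
    rw [det_map, ← hudef] at h3
    simp only [Nat.cast_zero, zero_mul] at h3
    have h4 : (μ t).toAdd * (π u).coeff t = 0 := by
      have h40 := DM_coeff μ (π u) t
      have h41 : (DM μ (π u)).coeff t = 0 := by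
        have h42 : DM μ (π u) = 0 := h3
        rw [h42]
        rfl
      exact h40.symm.trans h41
    apply hμ
    have h5 : (π u).coeff t = 1 ∨ (π u).coeff t = -1 := by
      rcases ht with h | h
      · left
        rw [h]
        show (MonoidAlgebra.mapRingHom T (Int.castRingHom (ZMod (p ^ N)))
          (MonoidAlgebra.single t 1)).coeff t = 1
        rw [MonoidAlgebra.coeff_mapRingHom, MonoidAlgebra.coeff_single, Finsupp.single_eq_same,
          map_one]
      · right
        rw [h]
        show (MonoidAlgebra.mapRingHom T (Int.castRingHom (ZMod (p ^ N)))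
          (MonoidAlgebra.single t (-1))).coeff t = -1
        rw [MonoidAlgebra.coeff_mapRingHom, MonoidAlgebra.coeff_single, Finsupp.single_eq_same,
          map_neg, map_one]
    have h6 : (μ t).toAdd = 0 := by
      rcases h5 with h | h
      · rw [h, mul_one] at h4
        exact h4
      · rw [h, mul_neg, mul_one, neg_eq_zero] at h4
        exact h4
    exact toAdd_eq_zero.1 h6
  rw [h2] at ht
  rcases ht with h | h
  · left
    rw [h]
    rfl
  · right
    rw [h, MonoidAlgebra.single_neg]
    rfl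

end tors

section main

open Pool.Agent.Y72.Log Pool.Agent.Y72.Dt H219.Wh

universe v

variable {Γ : Type*} [Group Γ] {n d : ℕ}

/-- **Representations with finite image over arbitrary fields** -/
theorem finite_image_sign (A : (Matrix (Fin n) (Fin n) (MonoidAlgebra ℤ Γ))ˣ) (hn : Cn Γ) {L : Type v} [Field L] (ρ : Γ →* Matrix (Fin d) (Fin d) L)
    (hρ : (Set.range ρ).Finite) :
    DD ρ A.val = ((DD (trv Γ ℤ) A.val ^ d : ℤ) : L) * (ρ (gamA A)).det := by
  let ρu : Γ →* (Matrix (Fin d) (Fin d) L)ˣ := ρ.toHomUnits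
  let G := ρu.range
  have hfin : Finite G := by
    have h1 : (Set.range ρu).Finite := by
      apply Set.Finite.of_finite_image (f := Units.val) _ Units.val_injective.injOn
      apply hρ.subset
      rintro _ ⟨_, ⟨g, rfl⟩, rfl⟩
      exact ⟨g, rfl⟩
    exact h1.to_subtype
  let π : Γ →* G := ρu.rangeRestrict
  let ρG : G →* Matrix (Fin d) (Fin d) L := (Units.coeHom _).comp G.subtype
  have hρG : ρG.comp π = ρ := by
    ext1 g
    rfl
  let B : Matrix (Fin n ⊕ Unit) (Fin n ⊕ Unit) (MonoidAlgebra ℤ Γ) :=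
    Matrix.fromBlocks A.val 0 0 (Matrix.of fun _ _ : Unit => MonoidAlgebra.single (gamA A)⁻¹ 1)
  have hB : ∀ (T : Type _) [CommGroup T] [Finite T] (d' : ℕ)
      (ρ' : G →* Matrix (Fin d') (Fin d') (MonoidAlgebra ℤ T)),
      DD ρ' (B.map (mp π)) = 1 ∨ DD ρ' (B.map (mp π)) = -1 := by
    intro T _ _ d' ρ'
    rw [DD_mp, DD_fromBlocks]
    have h1 := tors A hn (ρ'.comp π) (by
      apply (Set.finite_range ρ').subset
      rintro _ ⟨g, rfl⟩
      exact ⟨π g, rfl⟩)
    exact h1
  have hB0 : TorOK.{v, 0} (B.map (mp π)) := by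
    intro T _ _ d' ρ'
    rw [DD_mp, DD_fromBlocks]
    have h1 := tors A hn (ρ'.comp π) (by
      apply (Set.finite_range ρ').subset
      rintro _ ⟨g, rfl⟩
      exact ⟨π g, rfl⟩)
    exact h1
  have h1 := fin_sign hB hB0 (chg (algebraMap L (AlgebraicClosure L)) ρG)
  rw [DD_chg, DD_mp, hρG, DD_fromBlocks] at h1
  have hinj := (algebraMap L (AlgebraicClosure L)).injective
  have he : eps (B.map (mp π)) = DD (trv Γ ℤ) A.val := by
    unfold eps
    rw [DD_mp, DD_fromBlocks]
    have h3 : (trv G ℤ).comp π = trv Γ ℤ := rfl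
    rw [h3]
    have h4 : ((trv Γ ℤ) (gamA A)⁻¹).det = 1 := Matrix.det_one
    rw [h4, mul_one]
  rw [he, Fintype.card_fin] at h1
  have h2 : (ρ (gamA A)).det * (ρ (gamA A)⁻¹).det = 1 := by
    rw [← Matrix.det_mul, ← map_mul, mul_inv_cancel, map_one, Matrix.det_one]
  have h3 : DD ρ A.val * (ρ (gamA A)⁻¹).det = ((DD (trv Γ ℤ) A.val ^ d : ℤ) : L) := by
    apply hinj
    rw [h1, map_intCast]
  rw [← h3, mul_assoc, mul_comm (ρ (gamA A)⁻¹).det, h2, mul_one]

end main

section fields

open Pool.Agent.Y72.Log Pool.Agent.Y72.Dt H219.Wh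

universe u v

variable {H : Type v} [Group H] {n d : ℕ}

/-- **Representations of finitely generated groups over arbitrary fields** -/
theorem all_reps_sign [Group.FG H] (hn : Cn H)
    (A : (Matrix (Fin n) (Fin n) (MonoidAlgebra ℤ H))ˣ)
    {L : Type u} [Field L] (ρ : H →* Matrix (Fin d) (Fin d) L) :
    DD ρ A.val = ((DD (trv H ℤ) A.val ^ d : ℤ) : L) * (ρ (gamA A)).det := by
  obtain ⟨R, hR, ψ, hψ⟩ := exists_ring ρ
  have hval : chg (R.val.toRingHom) ψ = ρ := by
    ext g i j
    exact hψ g i j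
  have h1 : ∀ m : Ideal R, m.IsMaximal → DD ψ A.val -
      ((DD (trv H ℤ) A.val ^ d : ℤ) : R) * (ψ (gamA A)).det ∈ m := by
    intro m hm
    obtain ⟨q, hq, hqm, hfin⟩ := Pool.Agent.H23R2.residue_finite R m
    let i1 : Field (R ⧸ m) := Ideal.Quotient.field m
    have h2 := finite_image_sign A hn (chg (Ideal.Quotient.mk m) ψ) (Set.toFinite _)
    rw [DD_chg] at h2
    have h3 : (chg (Ideal.Quotient.mk m) ψ (gamA A)).det =
        Ideal.Quotient.mk m (ψ (gamA A)).det := (RingHom.map_det _ _).symm
    rw [h3] at h2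
    rw [← Ideal.Quotient.eq_zero_iff_mem, map_sub, h2, map_mul, map_intCast, sub_self]
  have h2 : DD ψ A.val - ((DD (trv H ℤ) A.val ^ d : ℤ) : R) * (ψ (gamA A)).det = 0 := by
    have hJ : IsJacobsonRing R := isJacobsonRing_of_finiteType (A := ℤ)
    have h3 : (⊥ : Ideal R).jacobson = ⊥ := hJ.out (Ideal.isPrime_bot (α := R)).isRadical
    have h4 : DD ψ A.val - ((DD (trv H ℤ) A.val ^ d : ℤ) : R) * (ψ (gamA A)).det ∈
        (⊥ : Ideal R).jacobson := by
      rw [Ideal.jacobson, Ideal.mem_sInf]
      rintro m ⟨_, hm⟩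
      exact h1 m hm
    rw [h3, Ideal.mem_bot] at h4
    exact h4
  have h4 := congrArg (R.val.toRingHom) h2
  rw [map_sub, map_mul, map_intCast, map_zero, ← DD_chg, hval, RingHom.map_det, sub_eq_zero] at h4
  rw [h4, ← hval]
  rfl

end fields

end Pool.Agent.Y72.Un
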