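import Pool.Agent.Y72.Un.Res
import Pool.Agent.Y72.Tr.Tors

/-!
# The Dennis trace under the conditions on centralisers and roots
-/

set_option autoImplicit false
set_option linter.unusedSectionVars false

namespace Pool.Agent.Y72.Un

open Finset H219.Wh Pool.Agent.Y72.Log Pool.Agent.Y72.Dt Pool.Agent.Y72.Tr
open Pool.Agent.H23R2 (InvPair IsCoc DsumZ cf supp invPair_units)
open scoped Classical

section main

variable {Γ : Type*} [Group Γ] {n : ℕ}

/-- finitely divisible coefficients -/
theorem PD_trick (A : (Matrix (Fin n) (Fin n) (MonoidAlgebra ℤ Γ))ˣ) (hn : Cn Γ)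
    {M : Type*} [AddCommGroup M]
    (hM : ∀ x : M, x ≠ 0 → {l : ℕ | l.Prime ∧ ∃ y : M, l • y = x}.Finite)
    {c : Γ} (hc : c ≠ 1) {F : Γ → Γ → M} (hF : IsCoc F)
    (hs : ∀ w x, ¬ IsConj c w → F w x = 0) : PD A F = 0 := by
  rw [PD_eq]
  exact trick (ip_A A) hn (fun l hl => lett_pow hl _ _ _) (fun l hl => lett_pow hl _ _ _)
    hM hc hF hs

/-- commutative centralisers -/
theorem PD_trick_b (A : (Matrix (Fin n) (Fin n) (MonoidAlgebra ℤ Γ))ˣ) (hn : Cn Γ)
    {M : Type*} [AddCommGroup M] {c : Γ} (hc : c ≠ 1) (hcb : Cb c) {F : Γ → Γ → M}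
    (hF : IsCoc F) (hs : ∀ w x, ¬ IsConj c w → F w x = 0) : PD A F = 0 := by
  rw [PD_eq]
  exact trick_b (ip_A A) hn (fun l hl => lett_pow hl _ _ _) (fun l hl => lett_pow hl _ _ _)
    hc hcb hF hs

/-- integral cocycles supported off the identity -/
lemma PD_int_zero (A : (Matrix (Fin n) (Fin n) (MonoidAlgebra ℤ Γ))ˣ) (hn : Cn Γ)
    {F : Γ → Γ → ℤ} (hF : IsCoc F) (hF1 : ∀ x, F 1 x = 0) : PD A F = 0 := by
  obtain ⟨T, hT⟩ := PD_clF A F
  rw [hT, PD_one A hF, hF1, zero_add]
  apply Finset.sum_eq_zero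
  intro C hC
  rw [Finset.mem_filter] at hC
  apply PD_trick A hn int_fin (c := rep C) _ (clF_coc hF C)
  · intro w x hw
    exact if_neg (fun hc => hw ((isConj_out_iff C w).2 hc))
  · intro h3
    apply hC.2
    rw [← mk_out C, h3]

lemma pow_dvd_f {c : Γ} {f : Γ → ℤ} (hf : AddOn c f) {x : Γ} {l : ℕ} (hx : IsConj c (x ^ l)) :
    (l : ℤ) ∣ f c := by
  obtain ⟨t, ht⟩ := isConj_iff.1 hx.symm
  have h1 : (t * x * t⁻¹) ^ l = c := by rw [conj_pow, ht]
  have h2 : (t * x * t⁻¹) * c = c * (t * x * t⁻¹) := by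
    rw [← h1, ← pow_succ', ← pow_succ]
  have h3 := hf.pow h2 l
  rw [h1] at h3
  rw [h3, nsmul_eq_mul]
  exact dvd_mul_right _ _

/-- cocycles supported on one class -/
theorem PD_class_zero (A : (Matrix (Fin n) (Fin n) (MonoidAlgebra ℤ Γ))ˣ) (hn : Cn Γ)
    {p : ℕ} (hp : p.Prime) {N : ℕ} {M : Type} [AddCommGroup M]
    (hM : ∀ x : M, (p ^ N) • x = 0) {c : Γ} (hc : c ≠ 1)
    {F : Γ → Γ → M} (hF : IsCoc F) (hs : ∀ w x, ¬ IsConj c w → F w x = 0) : PD A F = 0 := by
  rcases hn.cl c hc with ⟨f, hf, hfc⟩ | hcb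
  swap
  · exact PD_trick_b A hn hc hcb hF hs
  set f0 : ℤ := f c with hf0
  have hf0' : f0 ≠ 0 := hfc
  have hLC : LC c (cocF c f) f0 := LC.of_addOn hf
  set F0 := cocF c f with hF0
  obtain ⟨Y, W, hYW⟩ := relA A hp (N + f0.natAbs)
  have step : ∀ j : ℕ, PD A (fun w x => F (w ^ (p ^ j)) x) =
      PD A (fun w x => F (w ^ (p ^ (j + 1))) x) := by
    intro j
    have h1 := hYW M (by
      intro x
      rw [add_assoc, pow_add, mul_comm, mul_smul, hM, smul_zero]) _ (pow_coc hF (p ^ j))
    have h2 : (fun w x => F ((w ^ p) ^ (p ^ j)) x) = (fun w x => F (w ^ (p ^ (j + 1))) x) := by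
      funext w x
      rw [← pow_mul, pow_succ']
    rw [h2] at h1
    rw [h1]
    have h3 : ∑ w ∈ W, Y w • F (w ^ (p ^ j)) w = 0 := by
      rw [← Finset.sum_fiberwise_of_maps_to (s := W) (t := W.image ConjClasses.mk)
        (g := fun w => ConjClasses.mk w) (fun w hw => Finset.mem_image_of_mem _ hw)]
      apply Finset.sum_eq_zero
      intro C _
      have h4 : ∑ w ∈ W with ConjClasses.mk w = C, Y w • F (w ^ (p ^ j)) w =
          (∑ w ∈ W with ConjClasses.mk w = C, Y w) • F ((rep C) ^ (p ^ j)) (rep C) := by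
        rw [Finset.sum_smul]
        apply Finset.sum_congr rfl
        intro w hw
        rw [Finset.mem_filter] at hw
        congr 1
        exact coc_conj (pow_coc hF (p ^ j)) ((isConj_out_iff C w).2 hw.2)
      rw [h4]
      by_cases hC : IsConj c ((rep C) ^ (p ^ j))
      · -- the integral cocycle
        set G : Γ → Γ → ℤ := clF (fun w x => F0 (w ^ (p ^ j)) x) C with hG
        have hGc : IsCoc G := clF_coc (pow_coc hLC.coc (p ^ j)) C
        have hF01 : ∀ x, F0 1 x = 0 := by
          intro x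
          apply hLC.off
          intro h5
          exact hc (isConj_one_left.1 h5)
        have hG1 : ∀ x, G 1 x = 0 := by
          intro x
          show (if ConjClasses.mk 1 = C then F0 (1 ^ (p ^ j)) x else 0) = 0
          rw [one_pow, hF01, ite_self]
        have e1 : PD A G = 0 := PD_int_zero A hn hGc hG1
        have e2 : PD A (fun w x => G (w ^ p) x) = 0 := by
          apply PD_int_zero A hn (pow_coc hGc p)
          intro x
          show G (1 ^ p) x = 0
          rw [one_pow, hG1]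
        let cst : ℤ →+ ZMod (p ^ (N + f0.natAbs + 1)) := Int.castAddHom _
        have hGm : IsCoc (fun w x => cst (G w x)) := by
          intro w x y
          show cst _ = cst _ + cst _
          rw [← map_add, hGc]
        have e3 := hYW (ZMod (p ^ (N + f0.natAbs + 1))) (by
          intro x
          rw [nsmul_eq_mul, ZMod.natCast_self, zero_mul]) _ hGm
        rw [← map_PD A cst G, ← map_PD A cst (fun w x => G (w ^ p) x), e1, e2, map_zero,
          zero_add] at e3
        set lam : ℤ := F0 ((rep C) ^ (p ^ j)) (rep C) with hlam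
        have e4 : ∑ w ∈ W, Y w • cst (G w w) =
            cst ((∑ w ∈ W with ConjClasses.mk w = C, Y w) * lam) := by
          rw [Finset.sum_mul, map_sum, Finset.sum_filter]
          apply Finset.sum_congr rfl
          intro w _
          by_cases hw : ConjClasses.mk w = C
          · rw [if_pos hw, ← map_zsmul, smul_eq_mul]
            congr 2
            rw [hG]
            unfold clF
            rw [if_pos hw]
            exact coc_conj (pow_coc hLC.coc (p ^ j)) ((isConj_out_iff C w).2 hw)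
          · rw [if_neg hw]
            have e5 : G w w = 0 := if_neg hw
            rw [e5, map_zero, smul_zero]
        rw [e4] at e3
        have e5 : ((p : ℤ) ^ (N + f0.natAbs + 1)) ∣
            (∑ w ∈ W with ConjClasses.mk w = C, Y w) * lam := by
          have e6 := (ZMod.intCast_zmod_eq_zero_iff_dvd
            ((∑ w ∈ W with ConjClasses.mk w = C, Y w) * lam) (p ^ (N + f0.natAbs + 1))).1 e3.symm
          exact_mod_cast e6
        have e6 : ((p ^ j : ℕ) : ℤ) * lam = f0 := by
          have e7 := hLC.diag _ hC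
          rw [coc_pow_pow hLC.coc, nsmul_eq_mul] at e7
          exact e7
        have hlam0 : lam ≠ 0 := by
          intro h0
          rw [h0, mul_zero] at e6
          exact hf0' e6.symm
        have hlamle : lam.natAbs ≤ f0.natAbs := by
          apply Nat.le_of_dvd (Int.natAbs_pos.2 hf0')
          rw [Int.natAbs_dvd_natAbs]
          exact ⟨_, by rw [← e6]; ring⟩
        obtain ⟨z, hz⟩ := dvd_of_dvd_mul hp hlam0 (le_trans hlamle (Nat.le_succ _)) e5
        rw [hz, mul_comm, mul_smul]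
        have e8 : ((p : ℤ) ^ N) • F (rep C ^ p ^ j) (rep C) = 0 := by
          have e9 : ((p : ℤ) ^ N) = ((p ^ N : ℕ) : ℤ) := by push_cast; rfl
          rw [e9, natCast_zsmul, hM]
        rw [e8, smul_zero]
      · rw [hs _ _ hC, smul_zero]
    rw [h3, add_zero]
  have all : ∀ j : ℕ, PD A F = PD A (fun w x => F (w ^ (p ^ j)) x) := by
    intro j
    induction j with
    | zero => simp only [pow_zero, pow_one]
    | succ j ih => rw [ih, step]
  rw [all f0.natAbs]
  have h5 : (fun w x => F (w ^ (p ^ f0.natAbs)) x) = fun _ _ => 0 := by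
    funext w x
    apply hs
    intro h6
    have h7 := pow_dvd_f hf h6
    have h8 : p ^ f0.natAbs ∣ f0.natAbs := by
      rwa [← Int.natCast_dvd]
    have h9 := Nat.le_of_dvd (Int.natAbs_pos.2 hf0') h8
    have h10 : f0.natAbs < p ^ f0.natAbs := Nat.lt_pow_self hp.one_lt
    omega
  rw [h5]
  unfold PD DsumZ
  simp


/-- the theorem for small coefficient groups -/
theorem PD_main0 (A : (Matrix (Fin n) (Fin n) (MonoidAlgebra ℤ Γ))ˣ) (hn : Cn Γ)
    {p : ℕ} (hp : p.Prime) {N : ℕ} {M : Type} [AddCommGroup M]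
    (hM : ∀ x : M, (p ^ N) • x = 0) {F : Γ → Γ → M} (hF : IsCoc F) :
    PD A F = F 1 (gamA A) := by
  obtain ⟨T, hT⟩ := PD_clF A F
  rw [hT, PD_one A hF]
  have h2 : ∑ C ∈ T with C ≠ ConjClasses.mk 1, PD A (clF F C) = 0 := by
    apply Finset.sum_eq_zero
    intro C hC
    rw [Finset.mem_filter] at hC
    apply PD_class_zero A hn hp hM (c := rep C) _ (clF_coc hF C)
    · intro w x hw
      exact if_neg (fun hc => hw ((isConj_out_iff C w).2 hc))
    · intro h3
      apply hC.2
      rw [← mk_out C, h3]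
  rw [h2, add_zero]

/-- **The Dennis trace of an invertible matrix** -/
theorem PD_main (A : (Matrix (Fin n) (Fin n) (MonoidAlgebra ℤ Γ))ˣ) (hn : Cn Γ)
    {p : ℕ} (hp : p.Prime) {N : ℕ} {Λ : Type*} {M : Type*} [AddCommGroup M]
    (κ : Λ → M →+ ZMod (p ^ N)) (hκ : ∀ x : M, (∀ μ, κ μ x = 0) → x = 0)
    {F : Γ → Γ → M} (hF : IsCoc F) : PD A F = F 1 (gamA A) := by
  rw [← sub_eq_zero]
  apply hκ
  intro μ
  rw [map_sub, map_PD, sub_eq_zero]
  apply PD_main0 A hn hp (N := N)
  · intro x
    rw [nsmul_eq_mul, ZMod.natCast_self, zero_mul]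
  · intro w x y
    show κ μ _ = κ μ _ + κ μ _
    rw [← map_add, hF]

end main

end Pool.Agent.Y72.Un
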