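import Pool.Agent.Y72.Un.Lin
import Pool.Agent.Y72.Un.Van

/-!
# The conditions on centralisers and roots in linear groups
-/

set_option autoImplicit false
set_option linter.unusedSectionVars false

namespace Pool.Agent.Y72.Un

open Finset Polynomial Pool.Agent.Y72.Log Pool.Agent.Y72.Dt
open scoped Classical

section two

variable {K : Type*} [Field K]

/-- centralisers of nilpotent matrices of size two -/
lemma comm_two {Z X Y : Matrix (Fin 2) (Fin 2) K} (hZ : IsNilpotent Z) (hZ0 : Z ≠ 0)
    (hX : X * Z = Z * X) (hY : Y * Z = Z * Y) : X * Y = Y * X := by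
  have htr : Z.trace = 0 := (Matrix.isNilpotent_trace_of_isNilpotent hZ).eq_zero
  have h11 : Z 1 1 = - Z 0 0 := by
    rw [Matrix.trace_fin_two] at htr
    linear_combination htr
  have hdet : Z.det = 0 := by
    obtain ⟨k, hk⟩ := hZ
    have h1 : Z.det ^ k = 0 := by
      rw [← Matrix.det_pow, hk, Matrix.det_zero]
    have h2 : IsNilpotent Z.det := ⟨k, h1⟩
    exact h2.eq_zero
  rw [Matrix.det_fin_two, h11] at hdet
  have x1 := congrFun (congrFun hX 0) 0
  have x2 := congrFun (congrFun hX 0) 1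
  have x3 := congrFun (congrFun hX 1) 0
  have y1 := congrFun (congrFun hY 0) 0
  have y2 := congrFun (congrFun hY 0) 1
  have y3 := congrFun (congrFun hY 1) 0
  simp only [Matrix.mul_apply, Fin.sum_univ_two, h11] at x1 x2 x3 y1 y2 y3
  have hne : Z 0 1 ≠ 0 ∨ Z 1 0 ≠ 0 := by
    by_contra hcon
    push Not at hcon
    obtain ⟨h1, h2⟩ := hcon
    apply hZ0
    rw [h1, zero_mul, sub_zero] at hdet
    have h3 : Z 0 0 = 0 := by
      have h4 : Z 0 0 * Z 0 0 = 0 := by linear_combination -hdet
      exact mul_self_eq_zero.1 h4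
    ext i j
    fin_cases i <;> fin_cases j
    · exact h3
    · exact h1
    · exact h2
    · show Z 1 1 = 0
      rw [h11, h3, neg_zero]
  have g1 : X 0 1 * Y 1 0 = Y 0 1 * X 1 0 := by
    rcases hne with hq | hr
    · apply mul_left_cancel₀ hq
      linear_combination (X 0 1) * (-y1) + (Y 0 1) * x1
    · apply mul_left_cancel₀ hr
      linear_combination (Y 1 0) * x1 - (X 1 0) * y1
  have g2 : Y 0 1 * (X 0 0 - X 1 1) = X 0 1 * (Y 0 0 - Y 1 1) := by
    rcases hne with hq | hr
    · apply mul_left_cancel₀ hq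
      linear_combination (Y 0 1) * x2 - (X 0 1) * y2
    · apply mul_left_cancel₀ hr
      linear_combination (-2 * Z 0 0) * g1 - (Y 0 1) * x3 + (X 0 1) * y3
  have g3 : X 1 0 * (Y 0 0 - Y 1 1) = Y 1 0 * (X 0 0 - X 1 1) := by
    rcases hne with hq | hr
    · apply mul_left_cancel₀ hq
      linear_combination (X 1 0) * y2 - (Y 1 0) * x2 - 2 * Z 0 0 * g1
    · apply mul_left_cancel₀ hr
      linear_combination (Y 1 0) * x3 - (X 1 0) * y3
  ext i j
  rw [Matrix.mul_apply, Matrix.mul_apply, Fin.sum_univ_two, Fin.sum_univ_two]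
  fin_cases i <;> fin_cases j
  · show X 0 0 * Y 0 0 + X 0 1 * Y 1 0 = Y 0 0 * X 0 0 + Y 0 1 * X 1 0
    linear_combination g1
  · show X 0 0 * Y 0 1 + X 0 1 * Y 1 1 = Y 0 0 * X 0 1 + Y 0 1 * X 1 1
    linear_combination g2
  · show X 1 0 * Y 0 0 + X 1 1 * Y 1 0 = Y 1 0 * X 0 0 + Y 1 1 * X 1 0
    linear_combination g3
  · show X 1 0 * Y 0 1 + X 1 1 * Y 1 1 = Y 1 0 * X 0 1 + Y 1 1 * X 1 1
    linear_combination -g1

/-- centralisers of unipotent elements in groups of matrices of size at most two -/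
lemma cb_two {Γ : Type*} [Group Γ] {N : ℕ} (hN : N ≤ 2) (φ : Γ →* GL (Fin N) K)
    (hφ : Function.Injective φ) {g : Γ} (hg : g ≠ 1) (h : IsNilpotent ((φ g).val - 1)) :
    Cb g := by
  have hg1 : (φ g).val - 1 ≠ 0 := by
    intro h0
    apply hg
    apply hφ
    rw [map_one]
    apply Units.ext
    rw [Units.val_one]
    exact sub_eq_zero.1 h0
  have hcomm : ∀ x : Γ, x * g = g * x → (φ x).val * ((φ g).val - 1) = ((φ g).val - 1) * (φ x).val := by
    intro x hx
    rw [mul_sub, sub_mul, mul_one, one_mul, ← Units.val_mul, ← Units.val_mul, ← map_mul, ← map_mul,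
      hx]
  intro x y hx hy
  apply hφ
  apply Units.ext
  rw [map_mul, map_mul, Units.val_mul, Units.val_mul]
  have h1 := hcomm x hx
  have h2 := hcomm y hy
  interval_cases N
  · exact Subsingleton.elim _ _
  · ext i j
    rw [Matrix.mul_apply, Matrix.mul_apply, Fin.sum_univ_one, Fin.sum_univ_one]
    fin_cases i
    fin_cases j
    exact mul_comm _ _
  · exact comm_two h hg1 h1 h2

end two

section equiv

/-- transport along an isomorphism -/
lemma Cn.equiv {G G' : Type*} [Group G] [Group G'] (hn : Cn G) (e : G ≃* G') : Cn G' where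
  tf := by
    intro g m hm hg
    have h1 := hn.tf (e.symm g) m hm (by rw [← map_pow, hg, map_one])
    rw [← e.apply_symm_apply g, h1, map_one]
  ur := by
    apply hn.ur.mono
    rintro l ⟨hl, h⟩
    refine ⟨hl, fun x y hxy => e.symm.injective (h _ _ ?_)⟩
    rw [← map_pow, ← map_pow, hxy]
  fd := by
    intro c hc
    apply (hn.fd (e.symm c) (fun h => hc (by rw [← e.apply_symm_apply c, h, map_one]))).subset
    rintro l ⟨hl, x, hx⟩
    exact ⟨hl, e.symm x, by rw [← map_pow, hx]⟩
  cl := by
    intro c hc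
    have hcm : ∀ x, x * c = c * x → e.symm x * e.symm c = e.symm c * e.symm x := by
      intro x hx
      rw [← map_mul, ← map_mul, hx]
    rcases hn.cl (e.symm c) (fun h => hc (by rw [← e.apply_symm_apply c, h, map_one])) with
      ⟨f, hf, hfc⟩ | h
    · left
      refine ⟨fun x => f (e.symm x), ?_, hfc⟩
      intro x y hx hy
      show f (e.symm (x * y)) = _
      rw [map_mul]
      exact hf _ _ (hcm x hx) (hcm y hy)
    · right
      intro x y hx hy
      apply e.symm.injective
      rw [map_mul, map_mul]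
      exact h _ _ (hcm x hx) (hcm y hy)

end equiv

section cen

/-- the dichotomy for elements of finitely generated linear groups -/
theorem cen_pt {H k : Type*} [Group H] [Group.FG H] [Field k] {N : ℕ} (φ : H →* GL (Fin N) k)
    (c : H) : (∃ n : ℕ, 0 < n ∧ IsNilpotent ((φ (c ^ n)).val - 1)) ∨ Ca c := by
  let f : k →+* AlgebraicClosure k := algebraMap k (AlgebraicClosure k)
  let ψ : H →* GL (Fin N) (AlgebraicClosure k) := (Matrix.GeneralLinearGroup.map f).comp φ
  have hψ : ∀ h : H, (ψ h).val = f.mapMatrix (φ h).val := fun h => rfl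
  by_cases hex : ∃ x : AlgebraicClosure k, (ψ c).val.charpoly.IsRoot x ∧
      ∀ n : ℕ, 0 < n → x ^ n ≠ 1
  swap
  · left
    push Not at hex
    obtain ⟨n, hn, h1⟩ := exists_unip (ψ c).val (fun x hx => by
      obtain ⟨n, hn, h2⟩ := hex x hx
      exact ⟨n, hn, h2⟩)
    refine ⟨n, hn, ?_⟩
    obtain ⟨s, hs⟩ := h1
    refine ⟨s, ?_⟩
    have hinj : Function.Injective (f.mapMatrix : Matrix (Fin N) (Fin N) k →+* _) := by
      intro X Y hXY
      ext i j
      apply f.injective
      exact congrFun (congrFun hXY i) j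
    apply hinj
    rw [map_zero, map_pow, map_sub, map_one, map_pow, Units.val_pow_eq_pow_val, map_pow, ← hψ]
    exact hs
  right
  obtain ⟨x, hx, hxn⟩ := hex
  obtain ⟨p, hp⟩ := CharP.exists k
  rcases CharP.char_is_prime_or_zero k p with hp1 | hp1
  · haveI : Fact p.Prime := ⟨hp1⟩
    haveI : CharP (AlgebraicClosure k) p := charP_of_injective_algebraMap f.injective p
    letI : Algebra (ZMod p) (AlgebraicClosure k) := ZMod.algebra _ p
    apply cen_trans ψ (ZMod p) c hx
    intro halg
    have hx0 : x ≠ 0 := by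
      rintro rfl
      have h1 : IsUnit (ψ c).val.det := (Matrix.isUnit_iff_isUnit_det _).1 (ψ c).isUnit
      apply h1.ne_zero
      have h2 : (ψ c).val.charpoly.eval 0 = 0 := hx
      rw [Matrix.eval_charpoly, map_zero, zero_sub, Matrix.det_neg] at h2
      rcases mul_eq_zero.1 h2 with h3 | h3
      · exact absurd h3 (pow_ne_zero _ (neg_ne_zero.2 one_ne_zero))
      · exact h3
    obtain ⟨n, hn, h1⟩ := rootOfUnity_of_algebraic halg hx0
    exact hxn n hn h1
  · subst hp1
    haveI : CharZero k := CharP.charP_to_charZero k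
    haveI : CharZero (AlgebraicClosure k) := charZero_of_injective_algebraMap f.injective
    by_cases halg : IsAlgebraic ℚ x
    · exact cen_alg ψ c hx halg hxn
    · exact cen_trans ψ ℚ c hx halg

lemma fd_ca {H : Type*} [Group H] {c : H} (hc : Ca c) :
    {l : ℕ | l.Prime ∧ ∃ x : H, x ^ l = c}.Finite := by
  obtain ⟨f, hf, hfc⟩ := hc
  apply (Set.finite_Iic (f c).natAbs).subset
  rintro l ⟨_, x, hx⟩
  apply Nat.le_of_dvd (Int.natAbs_pos.2 hfc)
  rw [← Int.natCast_dvd]
  exact pow_dvd_f hf (by rw [hx])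

/-- **the conditions hold for linear groups** -/
theorem cn_linear {Γ k : Type*} [Group Γ] [Field k] {N : ℕ} (φ : Γ →* GL (Fin N) k)
    (hφ : Function.Injective φ) (htf : ∀ g : Γ, ∀ n : ℕ, 0 < n → g ^ n = 1 → g = 1)
    (hU : ∀ g : Γ, g ≠ 1 → IsNilpotent ((φ g).val - 1) → Cb g ∨ Ca g)
    (H : Subgroup Γ) (hH : H.FG) : Cn H := by
  haveI : Group.FG H := (Group.fg_iff_subgroup_fg H).2 hH
  have htfH : ∀ g : H, ∀ m : ℕ, 0 < m → g ^ m = 1 → g = 1 := by
    intro g m hm hg
    apply Subtype.ext
    apply htf g.1 m hm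
    have := congrArg Subtype.val hg
    simpa using this
  have hinj : Function.Injective (φ.comp H.subtype) := hφ.comp H.subtype_injective
  refine ⟨htfH, ur_linear (φ.comp H.subtype) hinj, ?_, ?_⟩
  · intro c hc
    rcases cen_pt (φ.comp H.subtype) c with ⟨n, hn, h1⟩ | h1
    · obtain ⟨p, hp⟩ := CharP.exists k
      rcases CharP.char_is_prime_or_zero k p with hp1 | hp1
      · exfalso
        haveI : Fact p.Prime := ⟨hp1⟩
        apply hc
        apply htfH c n hn
        exact no_unip (p := p) (φ.comp H.subtype) hinj htfH _ h1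
      · subst hp1
        haveI : CharZero k := CharP.charP_to_charZero k
        exact fd_unip htfH (φ.comp H.subtype) hinj c hc hn h1
    · exact fd_ca h1
  · intro c hc
    rcases cen_pt (φ.comp H.subtype) c with ⟨n, hn, h1⟩ | h1
    · have hcn : (c : Γ) ^ n ≠ 1 := by
        intro h2
        apply hc
        exact Subtype.ext (htf c.1 n hn h2)
      have h2 : IsNilpotent ((φ ((c : Γ) ^ n)).val - 1) := h1
      have hcc : ∀ x : H, x * c = c * x → (x : Γ) * (c : Γ) ^ n = (c : Γ) ^ n * x := by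
        intro x hx
        have h3 : (x : Γ) * c = c * x := congrArg Subtype.val hx
        exact (Commute.pow_right h3 n)
      rcases hU _ hcn h2 with h3 | ⟨f, hf, hfc⟩
      · right
        intro x y hx hy
        exact Subtype.ext (h3 _ _ (hcc x hx) (hcc y hy))
      · left
        refine ⟨fun x => f x, ?_, ?_⟩
        · intro x y hx hy
          exact hf _ _ (hcc x hx) (hcc y hy)
        · intro h0
          apply hfc
          have h4 : (c : Γ) * (c : Γ) ^ n = (c : Γ) ^ n * c := Commute.pow_right rfl n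
          rw [hf.pow h4]
          have h5 : f (c : Γ) = 0 := h0
          rw [h5, smul_zero]
    · exact Or.inl h1

/-- the conditions on `H` under the local hypothesis on unipotent elements of `H` -/
theorem cn_of {Γ k : Type*} [Group Γ] [Field k] {N : ℕ} (φ : Γ →* GL (Fin N) k)
    (hφ : Function.Injective φ) (htf : ∀ g : Γ, ∀ n : ℕ, 0 < n → g ^ n = 1 → g = 1)
    (h : (∃ p : ℕ, p.Prime ∧ CharP k p) ∨ N ≤ 2 ∨
      ∀ H : Subgroup Γ, H.FG → ∀ g ∈ H, g ≠ 1 → IsNilpotent ((φ g).val - 1) →
        (∀ x ∈ H, ∀ y ∈ H, x * g = g * x → y * g = g * y → x * y = y * x) ∨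
        ∃ f : Γ → ℤ, (∀ x ∈ H, ∀ y ∈ H, x * g = g * x → y * g = g * y →
          f (x * y) = f x + f y) ∧ f g ≠ 0) (H : Subgroup Γ) (hH : H.FG) : Cn H := by
  have htfH : ∀ g : H, ∀ m : ℕ, 0 < m → g ^ m = 1 → g = 1 := by
    intro g m hm hg
    apply Subtype.ext
    apply htf g.1 m hm
    have := congrArg Subtype.val hg
    simpa using this
  have hinj : Function.Injective (φ.comp H.subtype) := hφ.comp H.subtype_injective
  have hU : ∀ g : H, g ≠ 1 → IsNilpotent (((φ.comp H.subtype) g).val - 1) → Cb g ∨ Ca g := by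
    intro g hg hg1
    rcases h with ⟨p, hp, hc⟩ | h | h
    · exfalso
      haveI : Fact p.Prime := ⟨hp⟩
      haveI := hc
      exact hg (no_unip (p := p) (φ.comp H.subtype) hinj htfH g hg1)
    · exact Or.inl (cb_two h (φ.comp H.subtype) hinj hg hg1)
    · rcases h H hH g.1 g.2 (fun h0 => hg (Subtype.ext h0)) hg1 with h1 | ⟨f, hf, hfg⟩
      · left
        intro x y hx hy
        exact Subtype.ext (h1 x.1 x.2 y.1 y.2 (congrArg Subtype.val hx) (congrArg Subtype.val hy))
      · right
        refine ⟨fun x => f x, ?_, hfg⟩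
        intro x y hx hy
        exact hf x.1 x.2 y.1 y.2 (congrArg Subtype.val hx) (congrArg Subtype.val hy)
  have hTop : (⊤ : Subgroup H).FG := (Group.fg_def.1 ((Group.fg_iff_subgroup_fg H).2 hH))
  have h2 : Cn (⊤ : Subgroup H) := cn_linear (φ.comp H.subtype) hinj htfH hU ⊤ hTop
  exact h2.equiv Subgroup.topEquiv

end cen

end Pool.Agent.Y72.Un
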