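import Pool.Agent.Y72.Un.CnLin
import Pool.Agent.Y72.Tr.Fin

/-!
# The difference of the Dennis traces is torsion and divisible
-/

set_option autoImplicit false
set_option linter.unusedSectionVars false

namespace Pool.Agent.Y72.Un

open Finset H219.Wh Pool.Agent.Y72.Log Pool.Agent.Y72.Dt Pool.Agent.Y72.Tr
open Pool.Agent.H23R2 (InvPair IsCoc DsumZ cf supp invPair_units mem_supp pairing pairing_eq
  isCoc_of_hochschild)
open scoped Classical

universe u w

section main

variable {Γ : Type*} [Group Γ] {n : ℕ}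

/-- cocycles supported on one class -/
theorem PD_class_tors (A : (Matrix (Fin n) (Fin n) (MonoidAlgebra ℤ Γ))ˣ) (hn : Cn Γ)
    {c : Γ} (hc : c ≠ 1) {f : Γ → ℤ} (hf : AddOn c f) {M : Type*} [AddCommGroup M]
    {G : Γ → Γ → M} (hG : IsCoc G) (hs : ∀ w x, ¬ IsConj c w → G w x = 0) :
    (f c ^ 2) • PD A G = 0 := by
  set lam : ℤ := f c with hlam
  have hLC : LC c (cocF c f) lam := LC.of_addOn hf
  set F0 := cocF c f with hF0
  set G' : Γ → Γ → M := fun w x => lam • G w x - F0 w x • G c c with hG'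
  have hcoc : IsCoc G' := by
    intro w x y
    show lam • G w (x * y) - F0 w (x * y) • G c c = _
    rw [hG w x y, hLC.coc w x y]
    simp only [hG', smul_add, add_smul]
    abel
  have hdiag : ∀ w, G' w w = 0 := by
    intro w
    by_cases hw : IsConj c w
    · show lam • G w w - F0 w w • G c c = 0
      rw [coc_conj hG hw, hLC.diag w hw, sub_self]
    · show lam • G w w - F0 w w • G c c = 0
      rw [hs w w hw, hLC.off w w hw, smul_zero, zero_smul, sub_zero]
  have h1 := four (ip_A A) (lam := lam) hLC.coc hcoc hdiag (by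
    intro w
    by_cases hw : IsConj c w
    · exact Or.inl (hLC.diag w hw)
    · right
      intro x
      show lam • G w x - F0 w x • G c c = 0
      rw [hs w x hw, hLC.off w x hw, smul_zero, zero_smul, sub_zero])
  rw [← PD_eq] at h1
  have h2 : PD A G' = lam • PD A G - (PD A F0) • G c c := by
    have e1 : PD A (fun w x => lam • G w x) = lam • PD A G :=
      (map_PD A (DistribSMul.toAddMonoidHom M lam) G).symm
    have e2 : PD A (fun w x => F0 w x • G c c) = (PD A F0) • G c c :=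
      (map_PD A (zmultiplesHom M (G c c) : ℤ →+ M) F0).symm
    have e3 := PD_add A (fun w x => G' w x) (fun w x => F0 w x • G c c)
    have e4 : (fun w x => G' w x + F0 w x • G c c) = fun w x => lam • G w x := by
      funext w x
      exact sub_add_cancel _ _
    rw [e4, e1, e2] at e3
    rw [e3]
    exact (add_sub_cancel_right _ _).symm
  have h3 : PD A F0 = 0 := by
    apply PD_int_zero A hn hLC.coc
    intro x
    apply hLC.off
    intro h5
    exact hc (isConj_one_left.1 h5)
  rw [h2, h3, zero_smul, sub_zero, ← mul_smul] at h1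
  rw [pow_two]
  exact h1

/-- one class -/
lemma class_exp (A : (Matrix (Fin n) (Fin n) (MonoidAlgebra ℤ Γ))ˣ) (hn : Cn Γ)
    {c : Γ} (hc : c ≠ 1) : ∃ e : ℤ, e ≠ 0 ∧ ∀ (M : Type u) [AddCommGroup M] (G : Γ → Γ → M),
      IsCoc G → (∀ w x, ¬ IsConj c w → G w x = 0) → e • PD A G = 0 := by
  rcases hn.cl c hc with ⟨f, hf, hfc⟩ | hcb
  · exact ⟨f c ^ 2, pow_ne_zero 2 hfc, fun M _ G hG hs => PD_class_tors A hn hc hf hG hs⟩
  · refine ⟨1, one_ne_zero, fun M _ G hG hs => ?_⟩
    rw [PD_trick_b A hn hc hcb hG hs, smul_zero]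

/-- **the difference of the Dennis traces is torsion** -/
theorem PD_tors (A : (Matrix (Fin n) (Fin n) (MonoidAlgebra ℤ Γ))ˣ) (hn : Cn Γ) :
    ∃ k : ℕ, 0 < k ∧ ∀ (M : Type u) [AddCommGroup M] (F : Γ → Γ → M),
      IsCoc F → k • (PD A F - F 1 (gamA A)) = 0 := by
  let T := (TA A).filter (fun C => C ≠ ConjClasses.mk 1)
  have hne : ∀ C ∈ T, rep C ≠ 1 := by
    intro C hC h3
    apply (Finset.mem_filter.1 hC).2
    rw [← mk_out C, h3]
  let e : ConjClasses Γ → ℤ := fun C =>
    if h : rep C ≠ 1 then Classical.choose (class_exp.{u} A hn h) else 1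
  have he : ∀ C ∈ T, e C ≠ 0 := by
    intro C hC
    simp only [e, dif_pos (hne C hC)]
    exact (Classical.choose_spec (class_exp.{u} A hn (hne C hC))).1
  have he2 : ∀ C ∈ T, ∀ (M : Type u) [AddCommGroup M] (G : Γ → Γ → M),
      IsCoc G → (∀ w x, ¬ IsConj (rep C) w → G w x = 0) → e C • PD A G = 0 := by
    intro C hC
    simp only [e, dif_pos (hne C hC)]
    exact (Classical.choose_spec (class_exp.{u} A hn (hne C hC))).2
  refine ⟨(∏ C ∈ T, e C).natAbs, Int.natAbs_pos.2 (Finset.prod_ne_zero_iff.2 he), ?_⟩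
  intro M _ F hF
  have h1 : (∏ C ∈ T, e C) • (PD A F - F 1 (gamA A)) = 0 := by
    rw [PD_TA A F, PD_one A hF, add_sub_cancel_left, Finset.smul_sum]
    apply Finset.sum_eq_zero
    intro C hC
    obtain ⟨r, hr⟩ := Finset.dvd_prod_of_mem e hC
    have h2 := he2 C hC M (clF F C) (clF_coc hF C) (by
      intro w x hw
      exact if_neg (fun hc => hw ((isConj_out_iff C w).2 hc)))
    rw [hr, mul_comm, mul_smul, h2, smul_zero]
  rcases Int.natAbs_eq (∏ C ∈ T, e C) with h2 | h2
  · rw [h2, natCast_zsmul] at h1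
    exact h1
  · rw [h2, neg_smul, natCast_zsmul, neg_eq_zero] at h1
    exact h1

/-- **the difference of the Dennis traces is divisible by prime powers** -/
theorem PD_pow (A : (Matrix (Fin n) (Fin n) (MonoidAlgebra ℤ Γ))ˣ) (hn : Cn Γ) {M : Type*} [AddCommGroup M] {F : Γ → Γ → M} (hF : IsCoc F) {p : ℕ}
    (hp : p.Prime) (N : ℕ) : ∃ y : M, PD A F - F 1 (gamA A) = (p ^ N) • y := by
  let φ : M →+ M := nsmulAddMonoidHom (p ^ N)
  let q : M →+ M ⧸ φ.range := QuotientAddGroup.mk' φ.range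
  have hM : ∀ x : M ⧸ φ.range, (p ^ N) • x = 0 := by
    intro x
    obtain ⟨x, rfl⟩ := QuotientAddGroup.mk'_surjective φ.range x
    rw [← map_nsmul]
    exact (QuotientAddGroup.eq_zero_iff _).2 ⟨x, rfl⟩
  let Tn : AddSubgroup (AddCircle (1 : ℚ)) := (nsmulAddMonoidHom (p ^ N)).ker
  have key : q (PD A F - F 1 (gamA A)) = 0 := by
    by_contra hne
    obtain ⟨c, hc⟩ := CharacterModule.exists_character_apply_ne_zero_of_ne_zero hne
    let c' : (M ⧸ φ.range) →+ Tn := AddMonoidHom.codRestrict c Tn (by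
      intro x
      show (p ^ N) • c x = 0
      rw [← map_nsmul, hM, map_zero])
    have h1 := PD_main0 A hn hp (N := N) (M := Tn) (by
      intro x
      apply Subtype.ext
      exact x.2) (F := fun w x => c' (q (F w x))) (by
      intro w x y
      show c' (q _) = c' (q _) + c' (q _)
      rw [← map_add, ← map_add, hF])
    have h2 : c' (q (PD A F - F 1 (gamA A))) = 0 := by
      rw [map_sub, map_sub, map_PD A q F, map_PD A c' (fun w x => q (F w x)), h1, sub_self]
    apply hc
    exact congrArg Subtype.val h2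
  obtain ⟨y, hy⟩ := (QuotientAddGroup.eq_zero_iff _).1 key
  exact ⟨y, hy.symm⟩

/-- **the difference of the Dennis traces is divisible** -/
theorem PD_div (A : (Matrix (Fin n) (Fin n) (MonoidAlgebra ℤ Γ))ˣ) (hn : Cn Γ) {M : Type*} [AddCommGroup M] {F : Γ → Γ → M} (hF : IsCoc F) (m : ℕ)
    (hm : 0 < m) : ∃ y : M, PD A F - F 1 (gamA A) = m • y := by
  induction m using Nat.recOnPosPrimePosCoprime with
  | prime_pow p N hp _ => exact PD_pow A hn hF hp N
  | zero => exact absurd hm (lt_irrefl 0)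
  | one => exact ⟨_, (one_smul ℕ _).symm⟩
  | coprime a b ha hb' hab iha ihb =>
    obtain ⟨y, hy⟩ := iha (by omega)
    obtain ⟨z, hz⟩ := ihb (by omega)
    refine ⟨(Nat.gcdA a b) • z + (Nat.gcdB a b) • y, ?_⟩
    have h1 := Nat.gcd_eq_gcd_ab a b
    rw [hab] at h1
    set x := PD A F - F 1 (gamA A) with hx
    have h2 : x = ((a : ℤ) * Nat.gcdA a b + (b : ℤ) * Nat.gcdB a b) • x := by
      rw [← h1, Nat.cast_one, one_smul]
    rw [h2, add_smul, smul_add]
    congr 1
    · rw [← natCast_zsmul, ← mul_smul]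
      conv_lhs => rw [hz]
      rw [← natCast_zsmul, ← mul_smul]
      congr 1
      push_cast
      ring
    · rw [← natCast_zsmul, ← mul_smul]
      conv_lhs => rw [hy]
      rw [← natCast_zsmul, ← mul_smul]
      congr 1
      push_cast
      ring

end main

/-- **the Dennis trace**, for groups all of whose finitely generated subgroups satisfy the
conditions on centralisers and roots -/
theorem trace_fg {Γ : Type u} [Group Γ] {n : ℕ}
    (hn : ∀ H : Subgroup Γ, H.FG → Cn H)
    (A : (Matrix (Fin n) (Fin n) (MonoidAlgebra ℤ Γ))ˣ) :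
    ∃ γ : Γ, ∃ k : ℕ, 0 < k ∧ ∀ (M : Type w) [AddCommGroup M] (f : Γ → Γ → M),
      (∀ x y z : Γ, f (x * y) z - f x (y * z) + f (z * x) y = 0) →
      k • (pairing f (A⁻¹).val A.val - f γ⁻¹ γ) = 0 ∧
      ∀ m : ℕ, 0 < m → ∃ y : M, pairing f (A⁻¹).val A.val - f γ⁻¹ γ = m • y := by
  obtain ⟨H, hH, hS⟩ := exists_fg A
  obtain ⟨A', hA'⟩ := exists_sub A H hS
  obtain ⟨k, hk, h1⟩ := PD_tors.{w} A' (hn H hH)
  refine ⟨(gamA A' : H), k, hk, ?_⟩
  intro M _ f hf
  have hcoc : IsCoc (fun (w x : H) => f ((x⁻¹ : H) * (w : H) : H) (x : H)) :=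
    isCoc_of_hochschild (fun x y : H => f x y) (fun x y z => hf x y z)
  have h2 : pairing f (A⁻¹).val A.val =
      PD A' (fun (w x : H) => f ((x⁻¹ : H) * (w : H) : H) (x : H)) := by
    rw [hA', pairing_mpU]
    exact pairing_PD A' (fun x y : H => f x y)
  have h3 : f ((gamA A' : H) : Γ)⁻¹ ((gamA A' : H) : Γ) =
      (fun (w x : H) => f ((x⁻¹ : H) * (w : H) : H) (x : H)) 1 (gamA A') := by
    simp
  rw [h2, h3]
  exact ⟨h1 M _ hcoc, fun m hm => PD_div A' (hn H hH) hcoc m hm⟩

end Pool.Agent.Y72.Un
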