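import Pool.Agent.Y72.Un.Trick
import Pool.Agent.Y72.Tr.Four

/-!
# Classes with commutative centraliser
-/

set_option autoImplicit false
set_option linter.unusedSectionVars false

namespace Pool.Agent.Y72.Un

open Finset H219.Wh Pool.Agent.Y72.Log Pool.Agent.Y72.Dt Pool.Agent.Y72.Tr
open Pool.Agent.H23R2 (InvPair IsCoc DsumZ cf supp invPair_units)
open scoped Classical

section cob

variable {I S : Type*} [Fintype I] [Fintype S] {Γ : Type*} [Group Γ] {gr : S → Γ}
  {A B : I → I → S → ℤ} {M : Type*} [AddCommGroup M]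

lemma Dsum_add (F G : Γ → Γ → M) :
    Dsum gr A B (fun w x => F w x + G w x) = Dsum gr A B F + Dsum gr A B G := by
  unfold Dsum
  rw [← Finset.sum_add_distrib]
  apply Finset.sum_congr rfl
  intro y _
  rw [smul_add]

/-- coboundaries -/
lemma Dsum_cob (h : IP gr A B) (h0 : Γ → M) :
    Dsum gr A B (fun w x => h0 (x⁻¹ * w * x) - h0 w) = 0 := by
  rw [Dsum_eq]
  have h1 : (fun x y : Γ => h0 (x⁻¹ * (x * y) * x) - h0 (x * y)) =
      fun x y => h0 (y * x) - h0 (x * y) := by
    funext x y
    rw [inv_mul_cancel_left]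
  rw [h1]
  unfold S2
  simp_rw [smul_sub, Finset.sum_sub_distrib]
  rw [sub_eq_zero]
  have e1 : ∑ i, ∑ j, ∑ a, ∑ b, (A i j a * B j i b) • h0 (gr a * gr b) = ∑ _i : I, h0 1 := by
    apply Finset.sum_congr rfl
    intro i _
    rw [pair_ab h i i h0, if_pos rfl]
  have e2 : ∑ i, ∑ j, ∑ a, ∑ b, (A i j a * B j i b) • h0 (gr b * gr a) = ∑ _i : I, h0 1 := by
    rw [Finset.sum_comm]
    apply Finset.sum_congr rfl
    intro j _
    have h2 := pair_ab (gr := gr) (A := B) (B := A) ⟨h.ba, h.ab⟩ j j h0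
    rw [if_pos rfl] at h2
    rw [← h2]
    apply Finset.sum_congr rfl
    intro i _
    rw [Finset.sum_comm]
    apply Finset.sum_congr rfl
    intro b _
    apply Finset.sum_congr rfl
    intro a _
    rw [mul_comm]
  rw [e1, e2]

/-- a cocycle on a class is determined by its restriction to the centraliser, up to a coboundary -/
lemma coc_cohom {c : Γ} {F : Γ → Γ → M} (hF : IsCoc F) (hs : ∀ w x, ¬ IsConj c w → F w x = 0) :
    ∃ h0 : Γ → M, F = fun w x => cocF c (F c) w x + (h0 (x⁻¹ * w * x) - h0 w) := by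
  refine ⟨fun w => - F w (tc c w), ?_⟩
  funext w x
  by_cases hw : IsConj c w
  · have hwx : IsConj c (x⁻¹ * w * x) := (isConj_conj_iff c w x).2 hw
    have e1 := tc_spec hw
    have e2 := tc_spec hwx
    show F w x = (if IsConj c w then F c ((tc c w)⁻¹ * x * tc c (x⁻¹ * w * x)) else 0) + _
    rw [if_pos hw]
    set t := tc c w with ht
    set s := tc c (x⁻¹ * w * x) with hs'
    have hc : t⁻¹ * w * t = c := by rw [← e1]; group
    have h1 : F w (x * s) = F w x + F (x⁻¹ * w * x) s := hF w x s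
    have h2 : F w (t * (t⁻¹ * x * s)) = F w t + F c (t⁻¹ * x * s) := by
      have := hF w t (t⁻¹ * x * s)
      rwa [hc] at this
    have h3 : t * (t⁻¹ * x * s) = x * s := by group
    rw [h3, h1] at h2
    have h4 : F c (t⁻¹ * x * s) = F w x + F (x⁻¹ * w * x) s - F w t := by
      rw [h2]; abel
    rw [h4]
    show F w x = (F w x + F (x⁻¹ * w * x) s - F w t) + (-F (x⁻¹ * w * x) s - -F w t)
    abel
  · have hwx : ¬ IsConj c (x⁻¹ * w * x) := fun hc => hw ((isConj_conj_iff c w x).1 hc)
    show F w x = cocF c (F c) w x + (-F (x⁻¹ * w * x) (tc c (x⁻¹ * w * x)) - -F w (tc c w))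
    rw [hs w x hw, cocF_neg _ hw, hs w _ hw, hs _ _ hwx]
    simp

end cob

section comm

variable {Γ : Type*} [Group Γ]

/-- the centraliser of `c` as an additive group -/
def Zc (c : Γ) : Type _ := Additive (Subgroup.centralizer {c})

lemma mem_Zc {c x : Γ} : x ∈ Subgroup.centralizer ({c} : Set Γ) ↔ x * c = c * x := by
  rw [Subgroup.mem_centralizer_iff]
  constructor
  · intro h
    exact (h c rfl).symm
  · rintro h _ rfl
    exact h.symm

/-- the group structure -/
@[reducible] noncomputable def zcGroup {c : Γ} (hc : Cb c) : AddCommGroup (Zc c) :=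
  @Additive.addCommGroup _ { (inferInstance : Group (Subgroup.centralizer ({c} : Set Γ))) with
    mul_comm := fun x y => Subtype.ext (hc _ _ (mem_Zc.1 x.2) (mem_Zc.1 y.2)) }

/-- the inclusion of the centraliser, extended by zero -/
noncomputable def zin (c x : Γ) : Zc c :=
  if h : x * c = c * x then Additive.ofMul ⟨x, mem_Zc.2 h⟩ else Additive.ofMul 1

lemma zin_val {c x : Γ} (h : x * c = c * x) : ((zin c x).toMul : Γ) = x := by
  unfold zin
  rw [dif_pos h]
  rfl

lemma zin_add {c : Γ} (hc : Cb c) {x y : Γ} (hx : x * c = c * x) (hy : y * c = c * y) :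
    zin c (x * y) = (zcGroup hc).add (zin c x) (zin c y) := by
  have hxy : (x * y) * c = c * (x * y) := by
    rw [mul_assoc, hy, ← mul_assoc, hx, mul_assoc]
  unfold zin
  rw [dif_pos hx, dif_pos hy, dif_pos hxy]
  rfl

end comm

section trickb

variable {I S : Type*} [Fintype I] [Fintype S] {Γ : Type*} [Group Γ] {gr : S → Γ}
  {A B : I → I → S → ℤ} {M : Type*} [AddCommGroup M]

/-- **classes with commutative centraliser** -/
theorem trick_b (h : IP gr A B) (hn : Cn Γ)
    (hA : ∀ l : ℕ, Odd l → ∀ i j a, A i j a ^ l = A i j a)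
    (hB : ∀ l : ℕ, Odd l → ∀ i j a, B i j a ^ l = B i j a)
    {c : Γ} (hc : c ≠ 1) (hcb : Cb c) {F : Γ → Γ → M} (hF : IsCoc F)
    (hs : ∀ w x, ¬ IsConj c w → F w x = 0) : Dsum gr A B F = 0 := by
  letI := zcGroup hcb
  have hadd : AddOn c (zin c) := fun x y hx hy => zin_add hcb hx hy
  have h0 : Dsum gr A B (cocF c (zin c)) = 0 := by
    apply trick h hn hA hB _ hc (cocF_coc hadd) (fun w x hw => cocF_neg _ hw x)
    intro x hx
    have hx1 : (x.toMul : Γ) ≠ 1 := by
      intro hc1
      apply hx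
      have h1 : (x.toMul : Subgroup.centralizer ({c} : Set Γ)) = 1 := Subtype.ext hc1
      exact congrArg Additive.ofMul h1
    apply (hn.fd _ hx1).subset
    rintro l ⟨hl, y, hy⟩
    refine ⟨hl, (y.toMul : Γ), ?_⟩
    have h1 : (Additive.toMul (l • y) : Subgroup.centralizer ({c} : Set Γ)) = y.toMul ^ l := rfl
    rw [hy] at h1
    have h2 := congrArg Subtype.val h1
    rw [h2]
    rfl
  have hθc : ∀ x : Zc c, (x.toMul : Γ) * c = c * (x.toMul : Γ) := fun x => mem_Zc.1 x.toMul.2
  let θ : Zc c →+ M :=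
    { toFun := fun x => F c (x.toMul : Γ)
      map_zero' := hF.one c
      map_add' := fun x y => by
        show F c ((x.toMul : Γ) * (y.toMul : Γ)) = _
        have h1 : (x.toMul : Γ)⁻¹ * c * (x.toMul : Γ) = c := by
          rw [mul_assoc, ← hθc x, inv_mul_cancel_left]
        rw [hF, h1] }
  have h1 : cocF c (F c) = fun w x => θ (cocF c (zin c) w x) := by
    funext w x
    by_cases hw : IsConj c w
    · unfold cocF
      rw [if_pos hw, if_pos hw]
      show F c _ = F c ((zin c _).toMul : Γ)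
      rw [zin_val (tc_comm hw x)]
    · rw [cocF_neg _ hw, cocF_neg _ hw, map_zero]
  obtain ⟨g, hg⟩ := coc_cohom hF hs
  rw [hg, Dsum_add, Dsum_cob h, add_zero, h1, ← map_Dsum, h0, map_zero]

end trickb

end Pool.Agent.Y72.Un
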