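import Pool.Agent.Y72.Un.Comm
import Pool.Agent.Y72.Log.Sum

/-!
# Vanishing of the slice sums
-/

set_option autoImplicit false
set_option linter.unusedSectionVars false

namespace Pool.Agent.Y72.Un

open Finset Pool.Agent.H23R2 H219.Wh
open Pool.Agent.Y72.Log
open scoped Classical

/-- divisibility in torsion-free groups -/
lemma div_lem {B : Type*} [AddCommGroup B] (htf : ∀ n : ℕ, 0 < n → ∀ x : B, n • x = 0 → x = 0)
    {p : ℕ} (hp : p.Prime) {b : B} (hb : ∀ y : B, p • y ≠ b) (k : ℕ) :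
    ∀ (e : ℤ) (y : B), e • b = (p ^ k) • y → (p : ℤ) ^ k ∣ e := by
  induction k with
  | zero => intro e y _; simp
  | succ k ih =>
    intro e y h
    obtain ⟨e', he⟩ := ih e (p • y) (by rw [h, ← mul_smul, pow_succ])
    have h1 : (p ^ k) • (e' • b - p • y) = 0 := by
      rw [smul_sub, ← mul_smul, ← pow_succ, ← h, he, mul_smul, sub_eq_zero]
      rw [← natCast_zsmul]
      push_cast
      rfl
    have h2 : e' • b = p • y := sub_eq_zero.1 (htf _ (pow_pos hp.pos k) _ h1)
    have h3 : (p : ℤ) ∣ e' := by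
      by_contra hnd
      have hcop : IsCoprime (p : ℤ) e' :=
        (Nat.prime_iff_prime_int.1 hp).coprime_iff_not_dvd.2 hnd
      obtain ⟨u, v, huv⟩ := hcop
      apply hb (u • b + v • y)
      have h4 : b = (u * p + v * e') • b := by rw [huv, one_smul]
      conv_rhs => rw [h4]
      rw [add_smul, mul_smul, mul_smul, h2, smul_add, ← natCast_zsmul, ← natCast_zsmul,
        ← natCast_zsmul, smul_comm (p : ℤ) u b, smul_comm (p : ℤ) v y]
    obtain ⟨e'', he''⟩ := h3
    exact ⟨e'', by rw [he, he'', pow_succ]; ring⟩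

lemma int_fin (x : ℤ) (hx : x ≠ 0) : {l : ℕ | l.Prime ∧ ∃ y : ℤ, l • y = x}.Finite := by
  apply (Set.finite_Iic x.natAbs).subset
  rintro l ⟨_, y, hy⟩
  apply Nat.le_of_dvd (Int.natAbs_pos.2 hx)
  rw [← Int.natCast_dvd]
  exact ⟨y, by rw [← hy, nsmul_eq_mul]⟩

section main

variable {I S : Type*} [Fintype I] [Fintype S] {Γ : Type*} [Group Γ] {gr : S → Γ}
  {A B : I → I → S → ℤ} {p : ℕ}

/-- the slice sum, commutative centralisers -/
lemma ee_b (hp : p.Prime) (h : IP gr A B) (hn : Cn Γ)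
    (hA : ∀ l : ℕ, Odd l → ∀ i j a, A i j a ^ l = A i j a)
    (hB : ∀ l : ℕ, Odd l → ∀ i j a, B i j a ^ l = B i j a)
    {c : Γ} (hc1 : c ≠ 1) (hcb : Cb c) (hc : ∀ x, ¬ IsConj c (x ^ p)) {i : ℕ}
    {m : ℕ} [NeZero m] (hm : m = p ^ (i + 1)) {κ : (ZMod m → Γ) → ZMod m}
    (hκ : IsPh (fun w => IsConj c w) κ) :
    (p : ℤ) ^ (i + 1) ∣ EE gr A B (fun w => IsConj c w) κ := by
  letI := zcGroup hcb
  have hadd : AddOn c (zin c) := fun x y hx hy => zin_add hcb hx hy
  let φ : Zc c →+ Zc c := nsmulAddMonoidHom m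
  let q : Zc c →+ Zc c ⧸ φ.range := QuotientAddGroup.mk' φ.range
  have hMq : ∀ x : Zc c ⧸ φ.range, m • x = 0 := by
    intro x
    obtain ⟨x, rfl⟩ := QuotientAddGroup.mk'_surjective φ.range x
    rw [← map_nsmul]
    exact (QuotientAddGroup.eq_zero_iff _).2 ⟨x, rfl⟩
  set F : Γ → Γ → Zc c := cocF c (zin c) with hF
  have hFc : IsCoc F := cocF_coc hadd
  have hqF : IsCoc (fun w x => q (F w x)) := by
    intro w x y
    show q _ = q _ + q _
    rw [← map_add, hFc]
  have h1 := eval (gr := gr) (A := A) (B := B) (M := Zc c ⧸ φ.range) hp h (isCls_conj hc) hm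
    (r := 1) (v := 0) (pow_zero p).symm hκ (by
      intro x
      rw [mul_one]
      exact hMq x) hqF (f := q (zin c c)) (by
      intro w hw
      show q (cocF c (zin c) w w) = _
      rw [cocF_diag _ hw]) (by
      intro w x hw
      show q (cocF c (zin c) w x) = _
      rw [cocF_neg _ hw, map_zero]) (hMq _)
  have h2 : Dsum gr A B (fun w x => q (F w x)) = 0 := by
    rw [← map_Dsum, trick_b h hn hA hB hc1 hcb hFc (fun w x hw => cocF_neg _ hw x), map_zero]
  rw [h2, ← map_zsmul] at h1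
  obtain ⟨y, hy⟩ := (QuotientAddGroup.eq_zero_iff _).1 h1
  have hy' : m • y = EE gr A B (fun w => IsConj c w) κ • zin c c := hy
  have hy2 : EE gr A B (fun w => IsConj c w) κ • zin c c = (p ^ (i + 1)) • y := by
    rw [← hy', ← hm]
  refine div_lem ?_ hp ?_ (i + 1) _ y hy2
  · intro n hn0 x hx
    have h3 : (x.toMul : Subgroup.centralizer ({c} : Set Γ)) ^ n = 1 := congrArg Additive.toMul hx
    have h4 : (x.toMul : Γ) ^ n = 1 := by
      have := congrArg Subtype.val h3
      simpa using this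
    have h5 := hn.tf _ n hn0 h4
    have h6 : (x.toMul : Subgroup.centralizer ({c} : Set Γ)) = 1 := Subtype.ext h5
    exact congrArg Additive.ofMul h6
  · intro y hy
    apply hc (y.toMul : Γ)
    have h3 : (y.toMul : Subgroup.centralizer ({c} : Set Γ)) ^ p = (zin c c).toMul :=
      congrArg Additive.toMul hy
    have h4 : (y.toMul : Γ) ^ p = c := by
      have := congrArg Subtype.val h3
      rw [zin_val rfl] at this
      simpa using this
    rw [h4]

/-- the slice sum, additive functions -/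
lemma ee_a (hp : p.Prime) (h : IP gr A B) (hn : Cn Γ)
    (hA : ∀ l : ℕ, Odd l → ∀ i j a, A i j a ^ l = A i j a)
    (hB : ∀ l : ℕ, Odd l → ∀ i j a, B i j a ^ l = B i j a)
    {c : Γ} (hc1 : c ≠ 1) (hca : Ca c) (hc : ∀ x, ¬ IsConj c (x ^ p)) {i : ℕ}
    {m : ℕ} [NeZero m] (hm : m = p ^ (i + 1)) {κ : (ZMod m → Γ) → ZMod m}
    (hκ : IsPh (fun w => IsConj c w) κ) :
    (p : ℤ) ^ (i + 1) ∣ EE gr A B (fun w => IsConj c w) κ := by
  haveI : Fact p.Prime := ⟨hp⟩
  obtain ⟨f, hf, hfc⟩ := hca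
  have h1 := eval_int (gr := gr) (A := A) (B := B) hp h hc hm hκ
    (LC.of_addOn hf) (v := padicValInt p (f c)) (padicValInt_dvd _)
  have h2 : Dsum gr A B (cocF c f) = 0 :=
    trick h hn hA hB int_fin hc1 (cocF_coc hf) (fun w x hw => cocF_neg _ hw x)
  rw [h2, sub_zero] at h1
  by_cases ha : EE gr A B (fun w => IsConj c w) κ = 0
  · rw [ha]
    exact dvd_zero _
  have h3 : i + 1 + padicValInt p (f c) ≤
      padicValInt p (EE gr A B (fun w => IsConj c w) κ * f c) :=
    ((padicValInt_dvd_iff _ _).1 h1).resolve_left (mul_ne_zero ha hfc)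
  rw [padicValInt.mul ha hfc] at h3
  exact (padicValInt_dvd_iff _ _).2 (Or.inr (by omega))

/-- the slice sum of a class -/
lemma ee_c (hp : p.Prime) (h : IP gr A B) (hn : Cn Γ)
    (hA : ∀ l : ℕ, Odd l → ∀ i j a, A i j a ^ l = A i j a)
    (hB : ∀ l : ℕ, Odd l → ∀ i j a, B i j a ^ l = B i j a)
    {c : Γ} (hc1 : c ≠ 1) (hc : ∀ x, ¬ IsConj c (x ^ p)) {i : ℕ}
    {m : ℕ} [NeZero m] (hm : m = p ^ (i + 1)) {κ : (ZMod m → Γ) → ZMod m}
    (hκ : IsPh (fun w => IsConj c w) κ) :
    (p : ℤ) ^ (i + 1) ∣ EE gr A B (fun w => IsConj c w) κ := by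
  rcases hn.cl c hc1 with h1 | h1
  · exact ee_a hp h hn hA hB hc1 h1 hc hm hκ
  · exact ee_b hp h hn hA hB hc1 h1 hc hm hκ

/-- **vanishing of the slice sum** -/
theorem EE_van {Q : Type*} [Group Q] [Finite Q] (hp : p.Prime) (h : IP gr A B)
    (hn : Cn Γ)
    (hA : ∀ l : ℕ, Odd l → ∀ i j a, A i j a ^ l = A i j a)
    (hB : ∀ l : ℕ, Odd l → ∀ i j a, B i j a ^ l = B i j a)
    (φ : Γ →* Q) {P : Q → Prop} (hP : IsCls p P) {i m : ℕ} [NeZero m] (hm : m = p ^ (i + 1))
    {κ : (ZMod m → Q) → ZMod m} (hκ : IsPh P κ) :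
    (p : ℤ) ^ (i + 1) ∣ EE (fun s => φ (gr s)) A B P κ := by
  rw [← EE_comp]
  set R : Γ → Prop := fun g => P (φ g) with hRdef
  set κ' : (ZMod m → Γ) → ZMod m := fun g => κ (fun l => φ (g l)) with hκdef
  have hRcls : IsCls p R := by
    refine ⟨?_, ?_⟩
    · intro w x hw
      show P (φ (x⁻¹ * w * x))
      rw [map_mul, map_mul, map_inv]
      exact hP.conj _ _ hw
    · intro x hx
      apply hP.npow (φ x)
      rw [← map_pow]
      exact hx
  have hRconj : ∀ x y, IsConj x y → (R x ↔ R y) := by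
    intro x y hxy
    obtain ⟨t, ht⟩ := isConj_iff.1 hxy
    rw [← ht]
    have := hRcls.conj_iff x t⁻¹
    rw [inv_inv] at this
    exact this.symm
  have hκ' : IsPh R κ' := by
    intro g hg c
    show κ (fun l => φ (shift c g l)) = κ (fun l => φ (g l)) + c
    have h1 := hκ (fun l => φ (g l)) (by rw [W_map]; exact hg) c
    rw [← h1]
    rfl
  set T : Finset (ConjClasses Γ) :=
    (Finset.univ : Finset (ZMod m → Yy I S)).image
      (fun o => ConjClasses.mk (W (UU gr o) 0)) with hT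
  -- the decomposition into classes
  have hdec : EE gr A B R κ' = ∑ C ∈ T with R (rep C),
      EE gr A B (fun w => IsConj (rep C) w) κ' := by
    unfold EE
    rw [Finset.sum_filter]
    simp_rw [Finset.sum_filter (s := (Finset.univ : Finset (ZMod m → Yy I S)))]
    rw [Finset.sum_comm]
    apply Finset.sum_congr rfl
    intro o _
    by_cases ho : κ' (UU gr o) = 0
    · have h1 : ∀ C : ConjClasses Γ, (if RR gr (fun w => IsConj (rep C) w) o ∧
          κ' (UU gr o) = 0 then wt A B o * ((κ' (VV gr o)).val : ℤ) else 0) =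
          if ConjClasses.mk (W (UU gr o) 0) = C then
            wt A B o * ((κ' (VV gr o)).val : ℤ) else 0 := by
        intro C
        have h2 : (RR gr (fun w => IsConj (rep C) w) o ∧ κ' (UU gr o) = 0) ↔
            ConjClasses.mk (W (UU gr o) 0) = C := by
          rw [← isConj_out_iff]
          exact ⟨fun h3 => h3.1, fun h3 => ⟨h3, ho⟩⟩
        simp only [h2]
      simp_rw [h1]
      rw [Finset.sum_ite_eq]
      by_cases hR' : RR gr R o
      · rw [if_pos ⟨hR', ho⟩, if_pos]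
        rw [Finset.mem_filter]
        refine ⟨Finset.mem_image_of_mem _ (Finset.mem_univ o), ?_⟩
        exact (hRconj _ _ (isConj_out _)).2 hR'
      · rw [if_neg (fun hc => hR' hc.1), if_neg]
        rw [Finset.mem_filter]
        rintro ⟨_, h2⟩
        exact hR' ((hRconj _ _ (isConj_out _)).1 h2)
    · rw [if_neg (fun hc => ho hc.2)]
      symm
      apply Finset.sum_eq_zero
      intro C _
      rw [if_neg (fun hc => ho hc.2)]
  rw [hdec]
  apply Finset.dvd_sum
  intro C hC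
  rw [Finset.mem_filter] at hC
  refine ee_c hp h hn hA hB ?_ ?_ hm ?_
  · intro hc
    rw [hc] at hC
    exact hRcls.not_one hC.2
  · intro x hx
    exact hRcls.npow x ((hRconj _ _ hx).1 hC.2)
  · exact hκ'.mono (fun g hg => (hRconj _ _ hg).1 hC.2)

end main

end Pool.Agent.Y72.Un
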