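import Pool.Agent.Y72.Un.Trick
import Pool.Agent.Y72.Dt.UrLin

/-!
# Roots of unipotent elements in finitely generated linear groups
-/

set_option autoImplicit false
set_option linter.unusedSectionVars false

namespace Pool.Agent.Y72.Un

open Pool.Agent.Y72.Log Pool.Agent.Y72.Dt Pool.Agent.H23R2

section alg

/-- powers of unipotent elements -/
lemma sub_pow_zero {S : Type*} [Ring S] {X : S} {e : ℕ} (h : (X - 1) ^ e = 0) (a : ℕ) :
    (X ^ a - 1) ^ e = 0 := by
  have h1 : (∑ i ∈ Finset.range a, X ^ i) * (X - 1) = X ^ a - 1 := geom_sum_mul X a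
  have hc : Commute (∑ i ∈ Finset.range a, X ^ i) (X - 1) := by
    apply Commute.sum_left
    intro i _
    exact ((Commute.refl X).pow_left i).sub_right (Commute.one_right _)
  rw [← h1, hc.mul_pow, h, mul_zero]

lemma pow_expand {S : Type*} [Ring S] (W : S) (l : ℕ) :
    ∃ B : S, Commute W B ∧ (1 + W) ^ l - 1 = W * (l • (1 : S) + W * B) := by
  induction l with
  | zero => exact ⟨0, Commute.zero_right _, by simp⟩
  | succ l ih =>
    obtain ⟨B, hB, h⟩ := ih
    refine ⟨l • (1 : S) + B + W * B, ?_, ?_⟩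
    · exact (((Commute.one_right W).smul_right l).add_right hB).add_right
        ((Commute.refl W).mul_right hB)
    · have h1 : (1 + W) ^ l = 1 + W * (l • (1 : S) + W * B) := by
        rw [← h]; abel
      rw [pow_succ, h1]
      have h2 : (W * (W * B)) * W = W * (W * (W * B)) := by
        rw [mul_assoc, mul_assoc, ← hB.eq]
      simp only [mul_add, add_mul, mul_one, one_mul, nsmul_eq_mul, h2, Nat.cast_add,
        Nat.cast_one]
      have h3 : W * (l : S) * W = W * (W * l) := by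
        rw [mul_assoc, (Nat.cast_commute l W).eq]
      rw [h3]
      abel

lemma top_pow {S : Type*} [Ring S] (W : S) (l k : ℕ) (h : W ^ (k + 1) = 0) :
    ((1 + W) ^ l - 1) ^ k = (l ^ k) • W ^ k := by
  obtain ⟨B, hB, h1⟩ := pow_expand W l
  have hc : Commute W (l • (1 : S) + W * B) :=
    ((Commute.one_right W).smul_right l).add_right ((Commute.refl W).mul_right hB)
  rw [h1, hc.mul_pow]
  have h2 : ∀ j : ℕ, W ^ k * (l • (1 : S) + W * B) ^ j = (l ^ j) • W ^ k := by
    intro j
    induction j with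
    | zero => simp
    | succ j ih =>
      rw [pow_succ, ← mul_assoc, ih, smul_mul_assoc, mul_add, mul_smul_comm, mul_one, ← mul_assoc,
        ← pow_succ, h, zero_mul, add_zero, ← mul_smul, pow_succ]
  exact h2 k

end alg

section group

universe u v

variable {R : Type u} [CommRing R] [IsDomain R] [IsNoetherianRing R]
  {n : Type v} [Fintype n] [DecidableEq n] {H : Type*} [Group H]

/-- roots of unipotent elements are unipotent -/
lemma root_unip (ψ : H →* (Matrix n n R)ˣ) (m : Ideal R)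
    (hm : m ≠ ⊤) (q : ℕ) (hq : 0 < q) (E : ℕ) (hE0 : 0 < E)
    (hE : ∀ (X : (Matrix n n R)ˣ) (j : ℕ) (a b : n),
      ((X : Matrix n n R) ^ (E * q ^ j) - 1) a b ∈ m ^ (j + 1))
    (l : ℕ) (hlE : Nat.Coprime l (E * q)) (y : H) {e : ℕ}
    (h : ((ψ (y ^ l)).val - 1) ^ e = 0) : ((ψ y).val - 1) ^ e = 0 := by
  apply eq_of_congr m hm
  intro j
  rw [← mapMatrix_eq_iff, map_zero]
  set f := (Ideal.Quotient.mk (m ^ (j + 1))).mapMatrix (m := n) with hf
  have h1 : f (ψ y).val ^ (E * q ^ j) = 1 := by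
    rw [← map_pow]
    exact (mapMatrix_eq_one_iff _ _).2 (hE (ψ y) j)
  have hcop : Nat.Coprime l (E * q ^ j) := by
    rw [Nat.coprime_mul_iff_right] at hlE ⊢
    exact ⟨hlE.1, hlE.2.pow_right j⟩
  have hM : 0 < E * q ^ j := Nat.mul_pos hE0 (pow_pos hq j)
  have h2 := Nat.ModEq.pow_totient hcop
  have h3 : f (ψ y).val ^ (l ^ Nat.totient (E * q ^ j)) = f (ψ y).val := by
    conv_rhs => rw [← pow_one (f (ψ y).val)]
    exact pow_eq_pow_of_modEq h2 h1
  have h4 : 0 < Nat.totient (E * q ^ j) := Nat.totient_pos.2 hM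
  obtain ⟨t, ht⟩ : ∃ t, Nat.totient (E * q ^ j) = t + 1 := ⟨_, (Nat.succ_pred_eq_of_pos h4).symm⟩
  have h6 : l ^ (t + 1) = l * l ^ t := pow_succ' l t
  rw [ht, h6, pow_mul] at h3
  rw [map_pow, map_sub, map_one, ← h3]
  apply sub_pow_zero
  rw [← map_pow, ← map_one f, ← map_sub, ← map_pow]
  have h5 : (ψ y).val ^ l = (ψ (y ^ l)).val := by
    rw [map_pow, Units.val_pow_eq_pow_val]
  rw [h5, h, map_zero]

end group

section linear

universe u v

variable {K : Type u} [Field K] [CharZero K] {N : ℕ} {H : Type v} [Group H]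

/-- **virtually unipotent elements have roots for finitely many primes only** -/
theorem fd_unip [Group.FG H] (htf : ∀ g : H, ∀ m : ℕ, 0 < m → g ^ m = 1 → g = 1)
    (φ : H →* GL (Fin N) K) (hφ : Function.Injective φ) (c : H) (hc : c ≠ 1) {n : ℕ} (hn : 0 < n)
    (hu : IsNilpotent ((φ (c ^ n)).val - 1)) :
    {l : ℕ | l.Prime ∧ ∃ x : H, x ^ l = c}.Finite := by
  classical
  obtain ⟨e, he⟩ := hu
  obtain ⟨R, hR, ψ0, hψ0⟩ := exists_ring ((Units.coeHom _).comp φ)
  have hN : IsNoetherianRing R := Algebra.FiniteType.isNoetherianRing ℤ R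
  obtain ⟨s, hs⟩ := (Subalgebra.fg_iff_finiteType R).2 hR
  let ψ : H →* (Matrix (Fin N) (Fin N) R)ˣ := ψ0.toHomUnits
  have hval : ∀ h : H, R.val.toRingHom.mapMatrix (ψ h).val = (φ h).val := by
    intro h
    ext i j
    exact hψ0 h i j
  have hinj : Function.Injective (R.val.toRingHom.mapMatrix :
      Matrix (Fin N) (Fin N) R →+* Matrix (Fin N) (Fin N) K) := by
    intro X Y hXY
    ext i j
    exact congrFun (congrFun hXY i) j
  have hψ : Function.Injective ψ := by
    intro x y hxy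
    apply hφ
    apply Units.ext
    rw [← hval, ← hval, hxy]
  obtain ⟨m, hm⟩ := Ideal.exists_maximal R
  obtain ⟨q, hq, hqm, hfin⟩ := residue_finite R m
  obtain ⟨E, hE0, hE⟩ := exists_exponent (n := Fin N) m q hqm hfin
  have hne : E * q ≠ 0 := (Nat.mul_pos hE0 hq.pos).ne'
  set Z : Matrix (Fin N) (Fin N) K := (φ (c ^ n)).val - 1 with hZ
  let bad : Set ℕ := ((E * q).primeFactors : Set ℕ) ∪
    ⋃ z ∈ (Finset.range e ×ˢ (Finset.univ : Finset (Fin N × Fin N))),
      {l : ℕ | (Z ^ z.1) z.2.1 z.2.2 ≠ 0 ∧ l.Prime ∧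
        ∃ y ∈ Algebra.adjoin ℤ (s : Set K), (Z ^ z.1) z.2.1 z.2.2 = (l : K) * y}
  have hbad : bad.Finite := by
    apply (Finset.finite_toSet _).union
    apply Set.Finite.biUnion (Finset.finite_toSet _)
    intro z _
    by_cases hz : (Z ^ z.1) z.2.1 z.2.2 = 0
    · apply Set.finite_empty.subset
      rintro l ⟨h1, _⟩
      exact h1 hz
    · apply (finite_dvd_primes s _ hz).subset
      rintro l ⟨_, h1⟩
      exact h1
  apply hbad.subset
  rintro l ⟨hl, x, hx⟩
  by_cases hlE : l ∣ E * q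
  · exact Or.inl (Finset.mem_coe.2 (Nat.mem_primeFactors.2 ⟨hl, hlE, hne⟩))
  right
  set y := x ^ n with hy
  have hyl : y ^ l = c ^ n := by rw [hy, ← pow_mul, mul_comm, pow_mul, hx]
  have he' : ((ψ (y ^ l)).val - 1) ^ e = 0 := by
    apply hinj
    rw [map_zero, map_pow, map_sub, map_one, hval, hyl, he]
  have hW := root_unip ψ m hm.ne_top q hq.pos E hE0 hE l
    ((Nat.Prime.coprime_iff_not_dvd hl).2 hlE) y he'
  set W := (ψ y).val - 1 with hWdef
  have hcn : c ^ n ≠ 1 := fun h => hc (htf c n hn h)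
  have hW1 : W ≠ 0 := by
    intro h0
    apply hcn
    rw [← hyl]
    have h1 : ψ y = 1 := by
      apply Units.ext
      rw [Units.val_one]
      exact sub_eq_zero.1 h0
    have h2 : y = 1 := hψ (by rw [h1, map_one])
    rw [h2, one_pow]
  have hex : ∃ k, W ^ k = 0 := ⟨e, hW⟩
  obtain ⟨k, hk⟩ : ∃ k, Nat.find hex = k + 1 := by
    apply Nat.exists_eq_succ_of_ne_zero
    intro h0
    have h1 := Nat.find_spec hex
    rw [h0, pow_zero] at h1
    apply hW1
    rw [← mul_one W, h1, mul_zero]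
  have hk1 : W ^ (k + 1) = 0 := by rw [← hk]; exact Nat.find_spec hex
  have hk0 : W ^ k ≠ 0 := Nat.find_min hex (by omega)
  have hke : k < e := by
    have := Nat.find_min' hex hW
    omega
  have hkpos : 0 < k := by
    rcases Nat.eq_zero_or_pos k with h0 | h0
    · exfalso
      rw [h0, zero_add, pow_one] at hk1
      exact hW1 hk1
    · exact h0
  have htop : ((ψ (y ^ l)).val - 1) ^ k = (l ^ k) • W ^ k := by
    have h1 : (ψ (y ^ l)).val = (1 + W) ^ l := by
      rw [map_pow, Units.val_pow_eq_pow_val, hWdef]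
      congr 1
      abel
    rw [h1]
    exact top_pow W l k hk1
  obtain ⟨i, j, hij⟩ : ∃ i j, (W ^ k) i j ≠ 0 := by
    by_contra hcon
    push Not at hcon
    apply hk0
    ext1 i j
    rw [hcon i j, Matrix.zero_apply]
  have hZk : (Z ^ k) i j = (l : K) ^ k * ((W ^ k) i j : R) := by
    have h1 : Z ^ k = R.val.toRingHom.mapMatrix ((l ^ k) • W ^ k) := by
      rw [← htop, map_pow, map_sub, map_one, hval, hyl]
    rw [h1, RingHom.mapMatrix_apply, Matrix.map_apply, Matrix.smul_apply, nsmul_eq_mul, map_mul,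
      map_natCast, Nat.cast_pow]
    rfl
  simp only [Set.mem_iUnion]
  refine ⟨(k, (i, j)), ?_, ?_, hl, (l : K) ^ (k - 1) * ((W ^ k) i j : R), ?_, ?_⟩
  · rw [Finset.mem_product]
    exact ⟨Finset.mem_range.2 hke, Finset.mem_univ _⟩
  · show (Z ^ k) i j ≠ 0
    rw [hZk]
    apply mul_ne_zero
    · exact pow_ne_zero _ (by exact_mod_cast hl.ne_zero)
    · intro h0
      exact hij (Subtype.ext h0)
  · rw [hs]
    apply R.mul_mem
    · exact R.pow_mem (natCast_mem R l) _
    · exact ((W ^ k) i j).2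
  · show (Z ^ k) i j = _
    rw [hZk, ← mul_assoc, ← pow_succ', Nat.sub_add_cancel hkpos]

end linear

end Pool.Agent.Y72.Un
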