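import Pool.Agent.Y72.Dt.Main
import Mathlib.GroupTheory.QuotientGroup.Basic

/-!
# Vanishing on a class with finitely divisible coefficients
-/

set_option autoImplicit false
set_option linter.unusedSectionVars false

namespace Pool.Agent.Y72.Un

open Finset H219.Wh Pool.Agent.Y72.Log Pool.Agent.Y72.Dt
open Pool.Agent.H23R2 (InvPair IsCoc DsumZ cf supp invPair_units rootF rootF_pos rootF_neg
  rootF_coc rootF_zero rootF_succ_pow)
open scoped Classical

/-- the centraliser is commutative -/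
def Cb {Γ : Type*} [Group Γ] (c : Γ) : Prop :=
  ∀ x y : Γ, x * c = c * x → y * c = c * y → x * y = y * x

/-- there is an additive function on the centraliser which does not vanish at `c` -/
def Ca {Γ : Type*} [Group Γ] (c : Γ) : Prop := ∃ f : Γ → ℤ, AddOn c f ∧ f c ≠ 0

/-- the conditions on centralisers and roots -/
structure Cn (Γ : Type*) [Group Γ] : Prop where
  tf : ∀ g : Γ, ∀ m : ℕ, 0 < m → g ^ m = 1 → g = 1
  ur : UR Γ
  fd : ∀ c : Γ, c ≠ 1 → {l : ℕ | l.Prime ∧ ∃ x : Γ, x ^ l = c}.Finite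
  cl : ∀ c : Γ, c ≠ 1 → Ca c ∨ Cb c

lemma Cn.subgroup {Γ : Type*} [Group Γ] (hn : Cn Γ) (H : Subgroup Γ) : Cn H where
  tf := by
    intro g m hm hg
    apply Subtype.ext
    apply hn.tf g.1 m hm
    have := congrArg Subtype.val hg
    simpa using this
  ur := by
    apply hn.ur.mono
    rintro l ⟨hl, h⟩
    refine ⟨hl, fun x y hxy => Subtype.ext (h _ _ ?_)⟩
    have := congrArg Subtype.val hxy
    simpa using this
  fd := by
    intro c hc
    apply (hn.fd c.1 (fun h => hc (Subtype.ext h))).subset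
    rintro l ⟨hl, x, hx⟩
    refine ⟨hl, x.1, ?_⟩
    have := congrArg Subtype.val hx
    simpa using this
  cl := by
    intro c hc
    rcases hn.cl c.1 (fun h => hc (Subtype.ext h)) with ⟨f, hf, hfc⟩ | h
    · left
      refine ⟨fun x => f x, ?_, hfc⟩
      intro x y hx hy
      exact hf _ _ (congrArg Subtype.val hx) (congrArg Subtype.val hy)
    · right
      intro x y hx hy
      exact Subtype.ext (h _ _ (congrArg Subtype.val hx) (congrArg Subtype.val hy))

section trick

variable {I S : Type*} [Fintype I] [Fintype S] {Γ : Type*} [Group Γ] {gr : S → Γ}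
  {A B : I → I → S → ℤ}

/-- **finitely divisible coefficients** -/
theorem trick (h : IP gr A B) (hn : Cn Γ)
    (hA : ∀ l : ℕ, Odd l → ∀ i j a, A i j a ^ l = A i j a)
    (hB : ∀ l : ℕ, Odd l → ∀ i j a, B i j a ^ l = B i j a) {M : Type*} [AddCommGroup M]
    (hM : ∀ x : M, x ≠ 0 → {l : ℕ | l.Prime ∧ ∃ y : M, l • y = x}.Finite)
    {c : Γ} (hc : c ≠ 1) {F : Γ → Γ → M} (hF : IsCoc F)
    (hs : ∀ w x, ¬ IsConj c w → F w x = 0) : Dsum gr A B F = 0 := by
  by_contra hne
  -- the exceptional primes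
  let bad : Set ℕ := {l : ℕ | l.Prime ∧ ∃ y : M, l • y = Dsum gr A B F} ∪
    ((⋃ z ∈ (Finset.univ : Finset (S × S)), {l : ℕ | gr z.1 * gr z.2 ≠ 1 ∧ l.Prime ∧
      ∃ x : Γ, x ^ l = gr z.1 * gr z.2}) ∪ {2})
  have hbad : bad.Finite := by
    apply (hM _ hne).union
    apply Set.Finite.union _ (Set.finite_singleton 2)
    apply Set.Finite.biUnion (Finset.finite_toSet _)
    intro z _
    by_cases hz : gr z.1 * gr z.2 = 1
    · apply Set.finite_empty.subset
      rintro l ⟨h1, _⟩
      exact h1 hz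
    · apply (hn.fd _ hz).subset
      rintro l ⟨_, h1⟩
      exact h1
  obtain ⟨l, ⟨hl, hroot⟩, hlb⟩ := (hn.ur.sdiff hbad).nonempty
  simp only [bad, Set.mem_union, Set.mem_iUnion, not_or, Set.mem_singleton_iff] at hlb
  obtain ⟨hl1, hl2, hl3⟩ := hlb
  haveI : Fact l.Prime := ⟨hl⟩
  have hodd : Odd l := hl.odd_of_ne_two hl3
  apply hl1
  refine ⟨hl, ?_⟩
  let φ : M →+ M := nsmulAddMonoidHom l
  let q : M →+ M ⧸ φ.range := QuotientAddGroup.mk' φ.range
  have hMq : ∀ x : M ⧸ φ.range, l • x = 0 := by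
    intro x
    obtain ⟨x, rfl⟩ := QuotientAddGroup.mk'_surjective φ.range x
    rw [← map_nsmul]
    exact (QuotientAddGroup.eq_zero_iff _).2 ⟨x, rfl⟩
  suffices h0 : q (Dsum gr A B F) = 0 by
    obtain ⟨y, hy⟩ := (QuotientAddGroup.eq_zero_iff _).1 h0
    exact ⟨y, hy⟩
  set F' : Γ → Γ → M ⧸ φ.range := fun w x => q (F w x) with hF'
  have hF'c : IsCoc F' := by
    intro w x y
    show q _ = q _ + q _
    rw [← map_add, hF]
  have hR : IsCoc (rootF l F' 1) := rootF_coc hroot hF'c 1
  have hdiag : ∀ w, rootF l F' 1 w w = 0 := by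
    intro w
    by_cases hw : ∃ z : Γ, z ^ (l ^ 1) = w
    · obtain ⟨z, hz⟩ := hw
      rw [rootF_pos hroot F' 1 z w _ hz, ← hz]
      have h1 := coc_pow_pow hF'c z 1 (l ^ 1)
      rw [pow_one z] at h1
      rw [h1, pow_one, hMq]
    · exact rootF_neg F' 1 _ _ hw
  have h1 := frobenius_relation (p := l) (i := 0) (M := M ⧸ φ.range) h (hA l hodd) (hB l hodd)
    (by
      intro x
      rw [zero_add, pow_one]
      exact hMq x) hR hdiag
  have h2 : (fun w x => rootF l F' 1 (w ^ l) x) = F' := by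
    funext w x
    have h3 := rootF_succ_pow (p := l) hroot F' 0 w x
    rw [zero_add] at h3
    rw [h3, rootF_zero F' hroot]
  have h3 : Dsum gr A B (rootF l F' 1) = 0 := by
    unfold Dsum
    apply Finset.sum_eq_zero
    intro y _
    have h4 : rootF l F' 1 (gr y.2.2.1 * gr y.2.2.2) (gr y.2.2.1) = 0 := by
      by_cases hw : ∃ z : Γ, z ^ (l ^ 1) = gr y.2.2.1 * gr y.2.2.2
      · obtain ⟨z, hz⟩ := hw
        rw [rootF_pos hroot F' 1 z _ _ hz]
        by_cases hcz : IsConj c z
        · exfalso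
          apply hl2
          refine ⟨(y.2.2.1, y.2.2.2), Finset.mem_univ _, ?_, hl, z, by rw [← hz, pow_one]⟩
          intro h5
          rw [h5, pow_one] at hz
          have h6 := hn.tf z l hl.pos hz
          rw [h6] at hcz
          exact hc (isConj_one_left.1 hcz)
        · show q (F z _) = 0
          rw [hs z _ hcz, map_zero]
      · exact rootF_neg F' 1 _ _ hw
    rw [h4, smul_zero]
  rw [h3, h2] at h1
  rw [map_Dsum]
  exact h1.symm

end trick

end Pool.Agent.Y72.Un
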